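import Mathlib

/-!
Definitions for the generic `d`-parallel matroid.
-/

namespace Pool.Agent.LibMP471f68

/-- The normal of a face with coordinates `c`: the vector `(c_1, ..., c_{d-1}, 1)`. -/
def normal {K : Type*} [One K] {d : ℕ} (c : Fin (d - 1) → K) (k : Fin d) : K :=
  if h : (k : ℕ) < d - 1 then c ⟨k, h⟩ else 1

/-- The parallel `d`-scene matrix: one row for each pair `(i, j)` in `V × F`, one column for each
face (unknown `D^j`) and `d` columns for each vertex (unknown point `p_i`). The row of `(i, j)` has
entry `1` in column `D^j`, the normal of `j` in the columns of `i`, and `0` elsewhere. -/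
def sceneMatrix {K : Type*} [Zero K] [One K] (d : ℕ) {V F : Type*} [DecidableEq V] [DecidableEq F]
    (a : F → Fin (d - 1) → K) : Matrix (V × F) (F ⊕ V × Fin d) K :=
  fun e => Sum.elim (fun j => if j = e.2 then 1 else 0)
    (fun x => if x.1 = e.1 then normal (a e.2) x.2 else 0)

/-- The incidence graph: the bipartite graph on `V ⊔ F` whose edges are the incidences. -/
def incidenceGraph {V F : Type*} (I : Set (V × F)) : SimpleGraph (V ⊕ F) :=
  SimpleGraph.fromRel fun x y => ∃ i j, (i, j) ∈ I ∧ x = Sum.inl i ∧ y = Sum.inr j

/-- `k`-vertex-connectivity: more than `k` vertices, and connected after deleting any fewer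
than `k` vertices. -/
def VertexConnected {W : Type*} [Fintype W] (k : ℕ) (G : SimpleGraph W) : Prop :=
  k < Fintype.card W ∧ ∀ S : Finset W, S.card < k → (G.induce ((S : Set W)ᶜ)).Connected

end Pool.Agent.LibMP471f68
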