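import Mathlib
import Pool.Agent.LibMP471f68.Defs

/-!
Proof that `2d`-connectivity of the incidence graph implies spanning.
-/

open scoped BigOperators

namespace Pool.Agent.LibMP471f68

section Deriv

variable {σ : Type*} [DecidableEq σ]

/-- On the field of rational functions, partial differentiation. -/
theorem exists_deriv (K : Type*) [Field K] [Algebra (MvPolynomial σ ℚ) K]
    [IsFractionRing (MvPolynomial σ ℚ) K] (s : σ) :
    ∃ δ : K → K, (∀ x y, δ (x + y) = δ x + δ y) ∧ (∀ x y, δ (x * y) = x * δ y + y * δ x) ∧
      δ 1 = 0 ∧ ∀ t, δ (algebraMap (MvPolynomial σ ℚ) K (MvPolynomial.X t)) =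
        if t = s then 1 else 0 := by
  classical
  let φ : MvPolynomial σ ℚ →+* TrivSqZeroExt K K :=
    (MvPolynomial.eval₂Hom ((TrivSqZeroExt.inlHom K K).comp
        ((algebraMap (MvPolynomial σ ℚ) K).comp MvPolynomial.C))
      (fun t => TrivSqZeroExt.inl (algebraMap (MvPolynomial σ ℚ) K (MvPolynomial.X t)) +
        TrivSqZeroExt.inr (if t = s then 1 else 0)))
  have hfst : ∀ x, (φ x).fst = algebraMap (MvPolynomial σ ℚ) K x := by
    intro x
    have : ((TrivSqZeroExt.fstHom K K K).toRingHom.comp φ) = algebraMap (MvPolynomial σ ℚ) K := by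
      apply MvPolynomial.ringHom_ext
      · intro r
        simp only [φ, RingHom.comp_apply, MvPolynomial.coe_eval₂Hom, MvPolynomial.eval₂_C]
        rfl
      · intro t
        by_cases h : t = s <;> simp [φ, h]
    exact congrArg (fun f => f x) this
  have hunit : ∀ y : nonZeroDivisors (MvPolynomial σ ℚ), IsUnit (φ y) := by
    intro y
    rw [TrivSqZeroExt.isUnit_iff_isUnit_fst, hfst]
    exact IsLocalization.map_units K y
  let Φ : K →+* TrivSqZeroExt K K :=
    IsLocalization.lift (M := nonZeroDivisors (MvPolynomial σ ℚ)) (g := φ) hunit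
  have hΦ : ∀ x, Φ (algebraMap _ K x) = φ x := fun x => IsLocalization.lift_eq _ _
  have hΦfst : ∀ x, (Φ x).fst = x := by
    intro x
    have : ((TrivSqZeroExt.fstHom K K K).toRingHom.comp Φ) = RingHom.id K := by
      apply IsLocalization.ringHom_ext (nonZeroDivisors (MvPolynomial σ ℚ))
      ext x
      · simp
      · simp [hΦ, hfst]
    exact congrArg (fun f => f x) this
  refine ⟨fun x => (Φ x).snd, ?_, ?_, ?_, ?_⟩
  · intro x y; simp
  · intro x y
    simp [hΦfst, mul_comm]
  · simp
  · intro t
    simp only [hΦ]
    by_cases h : t = s <;> simp [φ, h]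

end Deriv

section Main

variable {K : Type*} [Field K] {d : ℕ} {Q F : Type*} [Fintype Q] [Fintype F]

/-- A drawing of the incidences `I`. -/
def IsDrawing {V : Type*} (I : V → F → Prop) (n : F → Fin d → K) (p : V → Fin d → K) (D : F → K) :
    Prop :=
  ∀ i j, I i j → ∑ k, n j k * p i k + D j = 0

/-- A dependency among the rows of the incidences `I`. -/
structure IsDep (I : Q → F → Prop) (n : F → Fin d → K) (μ : Q → F → K) : Prop where
  supp : ∀ q j, ¬ I q j → μ q j = 0
  col : ∀ j, ∑ q, μ q j = 0
  row : ∀ q k, ∑ j, μ q j * n j k = 0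

/-- The normals are *differentially generic*: for each coordinate but the last, of each face,
there is a derivation which is `1` on it and `0` on all other entries; last coordinate `1`. -/
def Generic [DecidableEq F] (n : F → Fin d → K) : Prop :=
  (∀ j (k : Fin d), (k : ℕ) < d - 1 → ∃ δ : K → K, (∀ x y, δ (x + y) = δ x + δ y) ∧
    (∀ x y, δ (x * y) = x * δ y + y * δ x) ∧
    ∀ j' k', δ (n j' k') = if j' = j ∧ k' = k then 1 else 0) ∧
  ∀ j (k : Fin d), ¬ (k : ℕ) < d - 1 → n j k = 1

theorem map_sum_of_add {K : Type*} [Field K] {δ : K → K} (hadd : ∀ x y, δ (x + y) = δ x + δ y)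
    {ι : Type*} (s : Finset ι) (f : ι → K) : δ (∑ i ∈ s, f i) = ∑ i ∈ s, δ (f i) := by
  classical
  have h0 : δ 0 = 0 := by
    have := hadd 0 0
    simpa using this
  induction s using Finset.induction_on with
  | empty => simpa using h0
  | insert a s ha ih => rw [Finset.sum_insert ha, Finset.sum_insert ha, hadd, ih]

theorem key [DecidableEq F] {I : Q → F → Prop} {n : F → Fin d → K} (hn : Generic n)
    {μ : Q → F → K} (hμ : IsDep I n μ) {p : Q → Fin d → K} {D : F → K}
    (hp : IsDrawing I n p D) (j : F) (k : Fin d) : ∑ q, μ q j * p q k = 0 := by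
  classical
  have h1 : ∀ j (k : Fin d), (k : ℕ) < d - 1 → ∑ q, μ q j * p q k = 0 := by
    intro j k hk
    obtain ⟨δ, hadd, hmul, hδ⟩ := hn.1 j k hk
    have h0 : δ 0 = 0 := by
      have := hadd 0 0
      simpa using this
    have hcol : ∀ j', ∑ q, δ (μ q j') = 0 := by
      intro j'
      rw [← map_sum_of_add hadd, hμ.col, h0]
    have hrow : ∀ q k', ∑ j', n j' k' * δ (μ q j') + (if k' = k then μ q j else 0) = 0 := by
      intro q k'
      have := congrArg δ (hμ.row q k')
      rw [map_sum_of_add hadd, h0] at this
      simp only [hmul, hδ] at this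
      rw [Finset.sum_add_distrib] at this
      rw [add_comm]
      convert this using 2
      by_cases hk' : k' = k
      · simp [hk']
      · simp [hk']
    have e1 : ∑ q, ∑ k', p q k' * (∑ j', n j' k' * δ (μ q j') + (if k' = k then μ q j else 0)) = 0 := by
      simp [hrow]
    have e2 : ∑ q, ∑ k', p q k' * (∑ j', n j' k' * δ (μ q j')) = 0 := by
      have : ∀ q, ∑ k', p q k' * (∑ j', n j' k' * δ (μ q j')) = ∑ j', - D j' * δ (μ q j') := by
        intro q
        simp only [Finset.mul_sum]
        rw [Finset.sum_comm]
        apply Finset.sum_congr rfl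
        intro j' _
        by_cases hI : I q j'
        · have := hp q j' hI
          have h2 : ∑ k', n j' k' * p q k' = - D j' := by linear_combination this
          rw [← h2, Finset.sum_mul]
          apply Finset.sum_congr rfl
          intro k' _
          ring
        · rw [hμ.supp q j' hI, h0]
          simp
      simp only [this]
      rw [Finset.sum_comm]
      apply Finset.sum_eq_zero
      intro j' _
      rw [← Finset.mul_sum, hcol, mul_zero]
    have e3 : ∑ q, ∑ k', p q k' * (if k' = k then μ q j else 0) = ∑ q, μ q j * p q k := by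
      apply Finset.sum_congr rfl
      intro q _
      simp [mul_comm]
    simp only [mul_add, Finset.sum_add_distrib] at e1
    rw [e2, e3, zero_add] at e1
    exact e1
  by_cases hk : (k : ℕ) < d - 1
  · exact h1 j k hk
  · -- the last coordinate
    have hall : ∑ q, μ q j * (∑ k', n j k' * p q k') = 0 := by
      have : ∀ q, μ q j * (∑ k', n j k' * p q k') = μ q j * (- D j) := by
        intro q
        by_cases hI : I q j
        · have := hp q j hI
          rw [show ∑ k', n j k' * p q k' = - D j by linear_combination this]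
        · rw [hμ.supp q j hI]; simp
      simp only [this]
      rw [← Finset.sum_mul, hμ.col, zero_mul]
    simp only [Finset.mul_sum] at hall
    rw [Finset.sum_comm] at hall
    rw [Finset.sum_eq_single k] at hall
    · rw [← hall]
      apply Finset.sum_congr rfl
      intro q _
      rw [hn.2 j k hk]; ring
    · intro k' _ hk'
      have hk'' : (k' : ℕ) < d - 1 := by
        have h1 := k'.2
        have h2 := k.2
        have h3 : (k' : ℕ) ≠ k := fun h => hk' (Fin.ext h)
        omega
      have := h1 j k' hk''
      calc ∑ q, μ q j * (n j k' * p q k') = n j k' * ∑ q, μ q j * p q k' := by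
            rw [Finset.mul_sum]
            apply Finset.sum_congr rfl
            intro q _
            ring
        _ = 0 := by rw [this, mul_zero]
    · simp

/-- If drawings separate the points of `Q` then there is no dependency. -/
theorem dep_eq_zero [DecidableEq F] {I : Q → F → Prop} {n : F → Fin d → K} (hn : Generic n)
    (hsep : ∀ q q' : Q, q ≠ q' → ∃ p D, IsDrawing I n p D ∧ ∃ k, p q k ≠ p q' k)
    {μ : Q → F → K} (hμ : IsDep I n μ) : μ = 0 := by
  classical
  -- closure under multiplication by an affine function of a drawing coordinate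
  have hclos : ∀ (μ : Q → F → K), IsDep I n μ → ∀ p D, IsDrawing I n p D → ∀ k c,
      IsDep I n (fun q j => μ q j * (p q k - c)) := by
    intro μ hμ p D hp k c
    refine ⟨?_, ?_, ?_⟩
    · intro q j h
      rw [hμ.supp q j h, zero_mul]
    · intro j
      simp only [mul_sub, Finset.sum_sub_distrib]
      rw [key hn hμ hp j k, ← Finset.sum_mul, hμ.col, zero_mul, sub_zero]
    · intro q k'
      have := hμ.row q k'
      calc ∑ j, μ q j * (p q k - c) * n j k' = (p q k - c) * ∑ j, μ q j * n j k' := by
            rw [Finset.mul_sum]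
            apply Finset.sum_congr rfl
            intro j _
            ring
        _ = 0 := by rw [this, mul_zero]
  funext q0 j0
  -- kill all other points
  have hkill : ∀ s : Finset Q, q0 ∉ s → ∃ c : Q → K, c q0 ≠ 0 ∧ (∀ q ∈ s, c q = 0) ∧
      IsDep I n (fun q j => μ q j * c q) := by
    intro s
    induction s using Finset.induction_on with
    | empty =>
      intro _
      refine ⟨fun _ => 1, one_ne_zero, by simp, ?_⟩
      simpa using hμ
    | insert q1 s hq1 ih =>
      intro hq0
      rw [Finset.mem_insert, not_or] at hq0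
      obtain ⟨c, hc0, hcs, hdep⟩ := ih hq0.2
      obtain ⟨p, D, hp, k, hk⟩ := hsep q0 q1 hq0.1
      refine ⟨fun q => c q * (p q k - p q1 k), mul_ne_zero hc0 (sub_ne_zero.mpr hk), ?_, ?_⟩
      · intro q hq
        rcases Finset.mem_insert.mp hq with rfl | hq
        · simp
        · simp [hcs q hq]
      · have := hclos _ hdep p D hp k (p q1 k)
        simpa [mul_assoc] using this
  obtain ⟨c, hc0, hcs, hdep⟩ := hkill (Finset.univ.erase q0) (by simp)
  have := hdep.col j0
  rw [Finset.sum_eq_single q0] at this
  · rcases mul_eq_zero.mp this with h | h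
    · simpa using h
    · exact absurd h hc0
  · intro q _ hq
    rw [hcs q (by simp [hq]), mul_zero]
  · simp

/-- Number of incidences when the rows are independent. -/
theorem card_le [DecidableEq F] {I : Q → F → Prop} [DecidableRel I] {n : F → Fin d → K}
    (hQ : Nonempty Q)
    (hind : ∀ μ : Q → F → K, IsDep I n μ → μ = 0) :
    (Finset.univ.filter fun e : Q × F => I e.1 e.2).card + d ≤
      Fintype.card F + d * Fintype.card Q := by
  classical
  let E := {e : Q × F // I e.1 e.2}
  let ext : (E → K) → Q → F → K := fun μ q j => if h : I q j then μ ⟨(q, j), h⟩ else 0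
  have hadd : ∀ x y, ext (x + y) = ext x + ext y := by
    intro x y; funext q j
    by_cases h : I q j <;> simp [ext, h]
  have hsmul : ∀ (c : K) x, ext (c • x) = c • ext x := by
    intro c x; funext q j
    by_cases h : I q j <;> simp [ext, h]
  let T : (E → K) →ₗ[K] (F → K) × (Q → Fin d → K) :=
    { toFun := fun μ => (fun j => ∑ q, ext μ q j, fun q k => ∑ j, ext μ q j * n j k)
      map_add' := by
        intro x y
        ext1
        · funext j; simp [hadd, Finset.sum_add_distrib]
        · funext q k; simp [hadd, add_mul, Finset.sum_add_distrib]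
      map_smul' := by
        intro c x
        ext1
        · funext j; simp [hsmul, Finset.mul_sum]
        · funext q k; simp [hsmul, Finset.mul_sum, mul_assoc] }
  have hTinj : Function.Injective T := by
    rw [← LinearMap.ker_eq_bot, LinearMap.ker_eq_bot']
    intro μ hμ
    have hz : ext μ = 0 := by
      apply hind
      refine ⟨?_, ?_, ?_⟩
      · intro q j h; simp [ext, h]
      · intro j
        exact congrFun (congrArg Prod.fst hμ) j
      · intro q k
        exact congrFun (congrFun (congrArg Prod.snd hμ) q) k
    funext e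
    have := congrFun (congrFun hz e.1.1) e.1.2
    simpa [ext, e.2] using this
  let S : ((F → K) × (Q → Fin d → K)) →ₗ[K] (Fin d → K) :=
    { toFun := fun x k => ∑ q, x.2 q k - ∑ j, x.1 j * n j k
      map_add' := by
        intro x y
        funext k
        simp [Finset.sum_add_distrib, add_mul]
        ring
      map_smul' := by
        intro c x
        funext k
        simp [Finset.mul_sum, mul_sub, mul_assoc] }
  have hST : ∀ μ, S (T μ) = 0 := by
    intro μ
    funext k
    simp only [S, T, LinearMap.coe_mk, AddHom.coe_mk, Finset.sum_mul, Pi.zero_apply]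
    rw [sub_eq_zero, Finset.sum_comm]
  have hSsurj : Function.Surjective S := by
    intro y
    obtain ⟨q0⟩ := hQ
    refine ⟨(0, Pi.single q0 y), ?_⟩
    funext k
    simp only [S, LinearMap.coe_mk, AddHom.coe_mk, Pi.zero_apply, zero_mul, Finset.sum_const_zero,
      sub_zero]
    rw [Finset.sum_eq_single q0]
    · simp
    · intro q _ hq; simp [hq]
    · simp
  have hle : LinearMap.range T ≤ LinearMap.ker S := by
    rintro _ ⟨μ, rfl⟩
    exact hST μ
  have h1 : Module.finrank K (LinearMap.range T) = Fintype.card E := by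
    rw [LinearMap.finrank_range_of_inj hTinj, Module.finrank_fintype_fun_eq_card]
  have h2 : Module.finrank K (LinearMap.ker S) + d = Fintype.card F + d * Fintype.card Q := by
    have := LinearMap.finrank_range_add_finrank_ker S
    rw [LinearMap.range_eq_top.mpr hSsurj, finrank_top] at this
    simp only [Module.finrank_fintype_fun_eq_card, Fintype.card_fin, Module.finrank_prod,
      Module.finrank_pi_fintype, Finset.sum_const, Finset.card_univ, smul_eq_mul] at this
    rw [add_comm, this, mul_comm d]
  have h3 := Submodule.finrank_mono hle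
  have h4 : Fintype.card E = (Finset.univ.filter fun e : Q × F => I e.1 e.2).card :=
    Fintype.card_subtype _
  omega

end Main

section Combinatorics

variable {V F : Type*}

theorem incidenceGraph_adj {I : Set (V × F)} {x y : V ⊕ F} (h : (incidenceGraph I).Adj x y) :
    (∃ i j, (i, j) ∈ I ∧ x = Sum.inl i ∧ y = Sum.inr j) ∨
      (∃ i j, (i, j) ∈ I ∧ x = Sum.inr j ∧ y = Sum.inl i) := by
  rw [incidenceGraph, SimpleGraph.fromRel_adj] at h
  rcases h.2 with ⟨i, j, hI, hx, hy⟩ | ⟨i, j, hI, hx, hy⟩
  · exact Or.inl ⟨i, j, hI, hx, hy⟩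
  · exact Or.inr ⟨i, j, hI, hy, hx⟩

/-- In a connected graph a property closed under adjacency holds everywhere if somewhere. -/
theorem all_of_connected {W : Type*} {G : SimpleGraph W} (hG : G.Connected) (P : W → Prop)
    (hP : ∀ x y, G.Adj x y → P x → P y) {x : W} (hx : P x) (y : W) : P y := by
  obtain ⟨w⟩ := hG.preconnected x y
  induction w with
  | nil => exact hx
  | cons h _ ih => exact ih (hP _ _ h hx)

variable [Fintype V] [Fintype F]

theorem exists_incident {k : ℕ} (hk : 0 < k) {I : Set (V × F)}
    (hconn : VertexConnected k (incidenceGraph I)) (hV : Nonempty V) (j : F) :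
    ∃ i, (i, j) ∈ I := by
  classical
  by_contra hne
  push Not at hne
  obtain ⟨i⟩ := hV
  have hc := hconn.2 ∅ (by simpa using hk)
  have := all_of_connected hc (fun x => x.1 = Sum.inr j) (by
    intro x y hxy hx
    have hxy' : (incidenceGraph I).Adj x.1 y.1 := hxy
    rcases incidenceGraph_adj hxy' with ⟨i', j', hI, hx', _⟩ | ⟨i', j', hI, hx', _⟩
    · rw [hx] at hx'; simp at hx'
    · rw [hx] at hx'
      have : j = j' := by simpa using hx'
      subst this
      exact absurd hI (hne i')) (x := ⟨Sum.inr j, by simp⟩) rfl ⟨Sum.inl i, by simp⟩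
  simp at this

/-- The contracted incidences. -/
def Contr {Q : Type*} (π : V → Q) (I : Set (V × F)) (q : Q) (j : F) : Prop :=
  ∃ i, π i = q ∧ (i, j) ∈ I

theorem card_boundary {k : ℕ} {Q : Type*} {I : Set (V × F)}
    (hconn : VertexConnected k (incidenceGraph I)) (π : V → Q) (hπ : Function.Surjective π)
    (q q' : Q) (hqq' : q' ≠ q) (B : Finset F)
    (hB : ∀ j, Contr π I q j → (∃ q'' ≠ q, Contr π I q'' j) → j ∈ B) : k ≤ B.card := by
  classical
  by_contra hlt
  push Not at hlt
  obtain ⟨i, hi⟩ := hπ q
  obtain ⟨i', hi'⟩ := hπ q'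
  let S : Finset (V ⊕ F) := B.map ⟨Sum.inr, Sum.inr_injective⟩
  have hc := hconn.2 S (by simpa [S] using hlt)
  have hmem : ∀ i : V, (Sum.inl i : V ⊕ F) ∈ ((S : Set (V ⊕ F))ᶜ) := by
    intro i; simp [S]
  have := all_of_connected hc
    (fun x => (∃ i, x.1 = Sum.inl i ∧ π i = q) ∨ (∃ j, x.1 = Sum.inr j ∧ Contr π I q j)) (by
    intro x y hxy hx
    have hxy' : (incidenceGraph I).Adj x.1 y.1 := hxy
    rcases incidenceGraph_adj hxy' with ⟨i1, j1, hI, hx1, hy1⟩ | ⟨i1, j1, hI, hx1, hy1⟩
    · right
      refine ⟨j1, hy1, i1, ?_, hI⟩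
      rcases hx with ⟨i2, hx2, hi2⟩ | ⟨j2, hx2, _⟩
      · rw [hx1] at hx2
        have : i1 = i2 := by simpa using hx2
        rw [this]; exact hi2
      · rw [hx1] at hx2; simp at hx2
    · left
      refine ⟨i1, hy1, ?_⟩
      rcases hx with ⟨i2, hx2, _⟩ | ⟨j2, hx2, hj2⟩
      · rw [hx1] at hx2; simp at hx2
      · rw [hx1] at hx2
        have h12 : j1 = j2 := by simpa using hx2
        subst h12
        by_contra hne
        have hjB := hB j1 hj2 ⟨π i1, hne, i1, rfl, hI⟩
        have hx3 := x.2
        apply hx3
        rw [hx1]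
        simpa [S] using hjB) (x := ⟨Sum.inl i, hmem i⟩) (Or.inl ⟨i, rfl, hi⟩) ⟨Sum.inl i', hmem i'⟩
  rcases this with ⟨i2, hx2, hi2⟩ | ⟨j2, hx2, _⟩
  · have : i' = i2 := by simpa using hx2
    rw [← this, hi'] at hi2
    exact hqq' hi2
  · simp at hx2

theorem count {d : ℕ} (hd : 0 < d) {Q : Type*} [Fintype Q] {I : Set (V × F)}
    (hconn : VertexConnected (2 * d) (incidenceGraph I)) (π : V → Q) (hπ : Function.Surjective π)
    (hQ : 1 < Fintype.card Q) [DecidableRel (Contr π I)] :
    Fintype.card F + d * Fintype.card Q ≤
      (Finset.univ.filter fun e : Q × F => Contr π I e.1 e.2).card := by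
  classical
  have hne : Nonempty V := by
    have : Nonempty Q := Fintype.card_pos_iff.mp (by omega)
    obtain ⟨q⟩ := this
    obtain ⟨i, _⟩ := hπ q
    exact ⟨i⟩
  -- number of classes at a face
  let c : F → ℕ := fun j => (Finset.univ.filter fun q : Q => Contr π I q j).card
  have hc1 : ∀ j, 1 ≤ c j := by
    intro j
    obtain ⟨i, hi⟩ := exists_incident (by omega) hconn hne j
    apply Finset.card_pos.mpr
    exact ⟨π i, by simp only [Finset.mem_filter, Finset.mem_univ, true_and]; exact ⟨i, rfl, hi⟩⟩
  have hsumc : (Finset.univ.filter fun e : Q × F => Contr π I e.1 e.2).card = ∑ j, c j := by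
    rw [Finset.card_filter, Fintype.sum_prod_type_right]
    apply Finset.sum_congr rfl
    intro j _
    simp only [c]
    rw [Finset.card_filter]
  let B : Q → Finset F := fun q => Finset.univ.filter fun j => Contr π I q j ∧ 2 ≤ c j
  have hB : ∀ q, 2 * d ≤ (B q).card := by
    intro q
    obtain ⟨q', hq'⟩ := Fintype.exists_ne_of_one_lt_card hQ q
    refine card_boundary hconn π hπ q q' hq' (B q) ?_
    rintro j hj ⟨q'', hq'', hj''⟩
    simp only [B, Finset.mem_filter, Finset.mem_univ, true_and]
    refine ⟨hj, ?_⟩
    have : ({q, q''} : Finset Q) ⊆ Finset.univ.filter fun q : Q => Contr π I q j := by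
      intro x hx
      simp only [Finset.mem_insert, Finset.mem_singleton] at hx
      simp only [Finset.mem_filter, Finset.mem_univ, true_and]
      rcases hx with rfl | rfl
      · exact hj
      · exact hj''
    have h2 := Finset.card_le_card this
    rwa [Finset.card_pair (Ne.symm hq'')] at h2
  have hsumB : ∑ q, (B q).card = ∑ j, if 2 ≤ c j then c j else 0 := by
    simp only [B, Finset.card_filter]
    rw [Finset.sum_comm]
    apply Finset.sum_congr rfl
    intro j _
    by_cases h : 2 ≤ c j
    · simp only [h, and_true, if_true]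
      simp only [c]
      rw [Finset.card_filter]
    · simp [h]
  have h1 : 2 * d * Fintype.card Q ≤ ∑ q, (B q).card := by
    have := Finset.card_nsmul_le_sum Finset.univ (fun q => (B q).card) (2 * d) (fun q _ => hB q)
    simpa [mul_comm] using this
  have h2 : ∑ j, (if 2 ≤ c j then c j else 0) + ∑ j : F, 2 ≤ ∑ j, 2 * c j := by
    rw [← Finset.sum_add_distrib]
    apply Finset.sum_le_sum
    intro j _
    have := hc1 j
    split_ifs <;> omega
  rw [← Finset.mul_sum] at h2
  simp only [Finset.sum_const, Finset.card_univ, smul_eq_mul] at h2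
  rw [hsumc]
  rw [hsumB] at h1
  have h3 : 2 * d * Fintype.card Q = 2 * (d * Fintype.card Q) := by ring
  omega

end Combinatorics

section Final

variable {V F : Type*} [Fintype V] [Fintype F] [DecidableEq F]

/-- Over a field with generic normals, every drawing of `I` is a translation. -/
theorem all_eq {K : Type*} [Field K] {d : ℕ} (hd : 0 < d) {I : Set (V × F)}
    (hconn : VertexConnected (2 * d) (incidenceGraph I)) {n : F → Fin d → K} (hn : Generic n)
    {p : V → Fin d → K} {D : F → K} (hp : IsDrawing (fun i j => (i, j) ∈ I) n p D) (i i' : V) :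
    p i = p i' := by
  classical
  let r : Setoid V :=
    { r := fun i i' => ∀ (p : V → Fin d → K) (D : F → K),
        IsDrawing (fun i j => (i, j) ∈ I) n p D → p i = p i'
      iseqv := ⟨fun _ _ _ _ => rfl, fun h p D hp => (h p D hp).symm,
        fun h h' p D hp => (h p D hp).trans (h' p D hp)⟩ }
  let Q := Quotient r
  have : Fintype Q := Fintype.ofFinite Q
  let π : V → Q := Quotient.mk r
  have hπ : Function.Surjective π := Quotient.mk_surjective
  by_cases hQ : 1 < Fintype.card Q
  · exfalso
    have h1 := count hd hconn π hπ hQ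
    have h2 := card_le (I := Contr π I) (n := n) (K := K) ⟨π i⟩ (by
      intro μ hμ
      refine dep_eq_zero hn ?_ hμ
      intro q q' hqq'
      obtain ⟨v, rfl⟩ := hπ q
      obtain ⟨v', rfl⟩ := hπ q'
      have hnot : ¬ ∀ (p : V → Fin d → K) (D : F → K),
          IsDrawing (fun i j => (i, j) ∈ I) n p D → p v = p v' := by
        intro h
        exact hqq' (Quotient.sound h)
      push Not at hnot
      obtain ⟨p, D, hp, hne⟩ := hnot
      obtain ⟨k, hk⟩ := Function.ne_iff.mp hne
      let pb : Q → Fin d → K := Quotient.lift p (fun a b h => h p D hp)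
      have hpb : ∀ v, pb (π v) = p v := fun v => rfl
      refine ⟨pb, D, ?_, k, ?_⟩
      · rintro q j ⟨i, rfl, hi⟩
        rw [hpb]
        exact hp i j hi
      · rw [hpb, hpb]; exact hk)
    omega
  · push Not at hQ
    have hs : Subsingleton Q := Fintype.card_le_one_iff_subsingleton.mp hQ
    have : π i = π i' := Subsingleton.elim _ _
    exact (Quotient.exact this) p D hp

variable [DecidableEq V]

/-- Each row of the scene matrix is a combination of rows of incidences in `I`. -/
theorem row_mem {K : Type*} [Field K] {d : ℕ} (hd : 0 < d) {I : Set (V × F)}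
    (hconn : VertexConnected (2 * d) (incidenceGraph I)) (a : F → Fin (d - 1) → K)
    (hn : Generic (fun j => normal (d := d) (a j))) (e : V × F) :
    sceneMatrix d a e ∈ Submodule.span K (sceneMatrix (V := V) d a '' I) := by
  classical
  by_contra hnot
  obtain ⟨f, hf, hker⟩ := Submodule.exists_le_ker_of_notMem hnot
  let x : (F ⊕ V × Fin d) → K := fun c => f (Pi.single c 1)
  have hfx : ∀ w : (F ⊕ V × Fin d) → K, f w = ∑ c, w c * x c := by
    intro w
    conv_lhs => rw [pi_eq_sum_univ' w]
    rw [map_sum]
    apply Finset.sum_congr rfl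
    intro c _
    rw [map_smul, smul_eq_mul]
  have hrow : ∀ (i : V) (j : F), f (sceneMatrix d a (i, j)) =
      ∑ k, normal (a j) k * x (Sum.inr (i, k)) + x (Sum.inl j) := by
    intro i j
    rw [hfx, Fintype.sum_sum_type, Fintype.sum_prod_type]
    rw [add_comm]
    congr 1
    · rw [Finset.sum_eq_single i]
      · simp [sceneMatrix]
      · intro i' _ hi'
        apply Finset.sum_eq_zero
        intro k _
        simp [sceneMatrix, hi']
      · simp
    · simp [sceneMatrix]
  have hdraw : IsDrawing (fun i j => (i, j) ∈ I) (fun j => normal (d := d) (a j))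
      (fun i k => x (Sum.inr (i, k))) (fun j => x (Sum.inl j)) := by
    intro i j hij
    rw [← hrow]
    exact hker (Submodule.subset_span ⟨(i, j), hij, rfl⟩)
  obtain ⟨i, j⟩ := e
  apply hf
  obtain ⟨i', hi'⟩ := exists_incident (by omega) hconn ⟨i⟩ j
  rw [hrow]
  have h1 := all_eq hd hconn hn hdraw i i'
  have h2 := hdraw i' j hi'
  have h3 : ∀ k, x (Sum.inr (i, k)) = x (Sum.inr (i', k)) := fun k => congrFun h1 k
  simp only [h3]
  exact h2

end Final

theorem spans (d : ℕ) (hd : 2 ≤ d) {V F : Type*} [Fintype V] [Fintype F] [DecidableEq V]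
    [DecidableEq F] (I : Set (V × F)) (hconn : VertexConnected (2 * d) (incidenceGraph I))
    (a : F → Fin (d - 1) → ℝ)
    (ha : AlgebraicIndependent ℚ (fun s : F × Fin (d - 1) => a s.1 s.2)) :
    ((sceneMatrix d a).submatrix (fun e : I => (e : V × F)) id).rank = (sceneMatrix (V := V) d a).rank := by
  classical
  let σ := F × Fin (d - 1)
  let K := FractionRing (MvPolynomial σ ℚ)
  let aK : F → Fin (d - 1) → K := fun j k => algebraMap (MvPolynomial σ ℚ) K (MvPolynomial.X (j, k))
  have hgen : Generic (fun j => normal (d := d) (aK j)) := by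
    refine ⟨?_, ?_⟩
    · intro j k hk
      obtain ⟨δ, h1, h2, h3, h4⟩ := exists_deriv (σ := σ) K (j, ⟨k, hk⟩)
      refine ⟨δ, h1, h2, ?_⟩
      intro j' k'
      by_cases hk' : (k' : ℕ) < d - 1
      · simp only [normal, hk', dif_pos, aK, h4]
        refine if_congr ?_ rfl rfl
        constructor
        · intro h
          rw [Prod.mk.injEq, Fin.mk.injEq] at h
          exact ⟨h.1, Fin.ext h.2⟩
        · rintro ⟨rfl, rfl⟩
          rfl
      · simp only [normal, hk', dif_neg, not_false_eq_true, h3]
        have : k' ≠ k := by rintro rfl; exact hk' hk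
        simp [this]
    · intro j k hk
      simp [normal, hk]
  have hinj : Function.Injective (MvPolynomial.aeval (R := ℚ) (fun s : σ => a s.1 s.2)) := ha
  let ψ : K →+* ℝ := IsFractionRing.lift (A := MvPolynomial σ ℚ)
    (g := (MvPolynomial.aeval (R := ℚ) (fun s : σ => a s.1 s.2)).toRingHom) hinj
  have hψ : ∀ j k, ψ (aK j k) = a j k := by
    intro j k
    simp only [ψ, aK]
    rw [IsFractionRing.lift_algebraMap]
    simp
  have hψM : ∀ (e : V × F) c, ψ (sceneMatrix d aK e c) = sceneMatrix d a e c := by
    intro e c
    rcases c with j | x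
    · simp only [sceneMatrix, Sum.elim_inl]
      split_ifs <;> simp
    · simp only [sceneMatrix, Sum.elim_inr]
      split_ifs
      · simp only [normal]
        split_ifs
        · exact hψ _ _
        · simp
      · simp
  have hspan : Submodule.span ℝ (Set.range (sceneMatrix (V := V) d a)) =
      Submodule.span ℝ (sceneMatrix (V := V) d a '' I) := by
    apply le_antisymm
    · rw [Submodule.span_le]
      rintro _ ⟨e, rfl⟩
      have := row_mem (by omega) hconn aK hgen e
      obtain ⟨t, ht, c, hc⟩ := (Submodule.mem_span_image_iff_exists_fun (R := K)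
        (v := fun e : V × F => (sceneMatrix d aK e : F ⊕ V × Fin d → K))).mp this
      refine (Submodule.mem_span_image_iff_exists_fun (R := ℝ)
        (v := fun e : V × F => (sceneMatrix d a e : F ⊕ V × Fin d → ℝ))).mpr
        ⟨t, ht, fun i => ψ (c i), ?_⟩
      funext col
      have := congrArg ψ (congrFun hc col)
      rw [hψM] at this
      rw [← this]
      simp [hψM]
    · exact Submodule.span_mono (Set.image_subset_range _ _)
  rw [Matrix.rank_eq_finrank_span_row, Matrix.rank_eq_finrank_span_row]
  have h1 : Set.range ((sceneMatrix (V := V) d a).submatrix (fun e : I => (e : V × F)) id).row =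
      sceneMatrix (V := V) d a '' I := by
    ext w
    constructor
    · rintro ⟨e, rfl⟩
      exact ⟨e.1, e.2, rfl⟩
    · rintro ⟨e, he, rfl⟩
      exact ⟨⟨e, he⟩, rfl⟩
  have h2 : Set.range (sceneMatrix (V := V) d a).row = Set.range (sceneMatrix (V := V) d a) := rfl
  rw [h1, h2, hspan]


end Pool.Agent.LibMP471f68
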